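import Pool.Agent.W5h94.HR.Skel

/-!
# Positive bases of the lattices `Λ + ℤ γ / N`
-/

set_option autoImplicit false
set_option linter.unusedSectionVars false

namespace Pool.Agent.W5h94.HR

open Finset

/-- The simplex. -/
def Psort : Prop :=
  ∀ {t : ℕ} (r : Fin t → ℝ), (∀ j, 0 < r j ∧ r j < 1) → Function.Injective r →
    ∃ (n : Fin (t + 1) → ℤ) (h : Fin (t + 1) → Fin t → ℤ) (S : Fin (t + 1) → Fin t → ℕ),
      (∀ k, 0 < (n k : ℝ) + ∑ j, (h k j : ℝ) * r j) ∧ ∑ k, n k = 1 ∧ (∀ j, ∑ k, h k j = 0) ∧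
      (∀ k j, S k j ≤ 1) ∧ (∀ j, ∑ k, (S k j : ℤ) * n k = 0) ∧
      ∀ j j', ∑ k, (S k j : ℤ) * h k j' = if j = j' then 1 else 0

variable {H : Type*} [AddCommGroup H] [LinearOrder H] [IsOrderedAddMonoid H] [Module ℚ H]
  [IsStrictOrderedModule ℚ H]

/-- The positive basis with the sum `γ / N`. -/
theorem lat7 (hlat : Plat) (hsort : Psort) {s : ℕ} (e : Fin s → H) (he : ∀ i, 0 < e i)
    (hli : LinearIndependent ℤ e) (γ : Fin s → ℤ) (Γ : H) (hΓ : Γ = ∑ i, γ i • e i) (hΓ0 : 0 < Γ)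
    (hbd : ∀ i, ∃ n : ℕ, e i ≤ n • Γ) :
    ∃ (D N0 : ℕ) (c : Fin s → ℤ), 0 < D ∧
      (∀ n : ℤ, n • (Γ - (D : ℤ) • ∑ i, c i • e i) ≤ Γ) ∧
      ∀ N : ℕ, N0 ≤ N → 0 < N → D ∣ N →
        ∃ (n : Fin s → ℤ) (g : Fin s → Fin s → ℤ) (A : Fin s → Fin s → ℕ),
          (∀ j, 0 < n j • ((1 / N : ℚ) • Γ) + ∑ k, g j k • e k) ∧
          (∀ i, e i = ∑ j, A i j • (n j • ((1 / N : ℚ) • Γ) + ∑ k, g j k • e k)) ∧
          ∑ j, (n j • ((1 / N : ℚ) • Γ) + ∑ k, g j k • e k) = (1 / N : ℚ) • Γ := by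
  classical
  obtain ⟨D, t, r, c, G, ρ, f, σ, A1, A, B, hD, rfl, hc, hG1, hG2, hf, hσ, hA, hA', hind⟩ :=
    skel hlat e he hli γ Γ hΓ hΓ0 hbd
  obtain ⟨N0, hN0⟩ := exists_nat_gt (∑ i, (∑ j, |(A i j : ℝ)| + ∑ l, |(B i l : ℝ)|) / σ i)
  refine ⟨D, N0, c, hD, fun n => hc.le hΓ0.le n, ?_⟩
  rintro N hN hNpos ⟨M, rfl⟩
  have hM : 0 < M := Nat.pos_of_mul_pos_left hNpos
  have hDr : (0 : ℝ) < D := by exact_mod_cast hD
  have hMr : (0 : ℝ) < M := by exact_mod_cast hM
  have hNr : (0 : ℝ) < D * M := mul_pos hDr hMr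
  have hDq : (D : ℚ) ≠ 0 := by exact_mod_cast hD.ne'
  have hMq : (M : ℚ) ≠ 0 := by exact_mod_cast hM.ne'
  have hσ0 : ∀ i, 0 ≤ σ i := fun i => (hσ i).nonneg hΓ0 (he i).le
  have hbig : ∀ i, σ i ≠ 0 → ∑ j, |(A i j : ℝ)| + ∑ l, |(B i l : ℝ)| ≤ D * M * σ i := by
    intro i hi
    have h0 : 0 < σ i := lt_of_le_of_ne (hσ0 i) hi.symm
    have h1 : (∑ j, |(A i j : ℝ)| + ∑ l, |(B i l : ℝ)|) / σ i ≤
        ∑ i, (∑ j, |(A i j : ℝ)| + ∑ l, |(B i l : ℝ)|) / σ i :=
      Finset.single_le_sum (f := fun i => (∑ j, |(A i j : ℝ)| + ∑ l, |(B i l : ℝ)|) / σ i)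
        (fun i _ => div_nonneg (add_nonneg (Finset.sum_nonneg fun j _ => abs_nonneg _)
          (Finset.sum_nonneg fun j _ => abs_nonneg _)) (hσ0 i)) (Finset.mem_univ i)
    have h2 : (N0 : ℝ) ≤ D * M := by exact_mod_cast hN
    have h3 := h1.trans (hN0.le.trans h2)
    rwa [div_le_iff₀ h0] at h3
  obtain ⟨ϖ, hϖ⟩ : ∃ ϖ : H, ϖ = (1 / ((D * M : ℕ) : ℚ)) • Γ := ⟨_, rfl⟩
  rw [← hϖ]
  have hϖM : (1 / D : ℚ) • Γ = (M : ℤ) • ϖ := by
    rw [hϖ, ← Int.cast_smul_eq_zsmul ℚ, smul_smul]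
    congr 1
    push_cast
    field_simp
  have hSϖ : Sp Γ ϖ (1 / (D * M)) := by
    have := (Sp.self hΓ0.le).smul hΓ0.le (1 / ((D * M : ℕ) : ℚ))
    rw [← hϖ] at this
    push_cast at this
    rwa [mul_one] at this
  obtain ⟨fl, hfl⟩ : ∃ fl : Fin t → ℤ, fl = fun j => ⌊(M : ℝ) * ρ j⌋ := ⟨_, rfl⟩
  obtain ⟨rr, hrr⟩ : ∃ rr : Fin t → ℝ, rr = fun j => (M : ℝ) * ρ j - fl j := ⟨_, rfl⟩
  have hrr' : ∀ j, (M : ℝ) * ρ j = fl j + rr j := by
    intro j
    rw [hrr]
    ring
  have hr0 : ∀ j, 0 ≤ rr j := by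
    intro j
    have := Int.floor_le ((M : ℝ) * ρ j)
    rw [hrr, hfl]
    simp only
    linarith
  have hr1 : ∀ j, rr j < 1 := by
    intro j
    have := Int.lt_floor_add_one ((M : ℝ) * ρ j)
    rw [hrr, hfl]
    simp only
    linarith
  have hsingle : ∀ (j : Fin t) (c : ℤ), ∑ l, ((Pi.single j c : Fin t → ℤ) l : ℝ) * ρ l =
      c * ρ j := by
    intro j c
    rw [Finset.sum_eq_single j]
    · simp
    · intro l _ hl
      rw [Pi.single_eq_of_ne hl]
      simp
    · simp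
  have hM0 : (M : ℤ) ≠ 0 := by omega
  have hrne : ∀ j, rr j ≠ 0 := by
    intro j h
    have h1 := (hind (-fl j) (Pi.single j (M : ℤ)) (by
      rw [hsingle]
      have := hrr' j
      push_cast
      rw [this, h]
      ring)).2
    have h2 := congrFun h1 j
    rw [Pi.single_eq_same] at h2
    exact hM0 h2
  have hrinj : Function.Injective rr := by
    intro j k h
    by_contra hne
    have h1 := (hind (-(fl j - fl k)) (Pi.single j (M : ℤ) - Pi.single k (M : ℤ)) (by
      have e1 : ∑ l, (((Pi.single j (M : ℤ) - Pi.single k (M : ℤ) : Fin t → ℤ) l : ℤ) : ℝ) * ρ l =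
          (M : ℝ) * ρ j - (M : ℝ) * ρ k := by
        have e2 : ∀ l, (((Pi.single j (M : ℤ) - Pi.single k (M : ℤ) : Fin t → ℤ) l : ℤ) : ℝ) * ρ l =
            ((Pi.single j (M : ℤ) : Fin t → ℤ) l : ℝ) * ρ l -
              ((Pi.single k (M : ℤ) : Fin t → ℤ) l : ℝ) * ρ l := by
          intro l
          rw [Pi.sub_apply]
          push_cast
          ring
        rw [Finset.sum_congr rfl fun l _ => e2 l, Finset.sum_sub_distrib, hsingle, hsingle]
        push_cast
        ring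
      rw [e1, hrr' j, hrr' k, h]
      push_cast
      ring)).2
    have h2 := congrFun h1 j
    rw [Pi.sub_apply, Pi.single_eq_same, Pi.single_eq_of_ne hne, sub_zero] at h2
    exact hM0 h2
  obtain ⟨n, h, S, hs1, hs2, hs3, hs4, hs5, hs6⟩ := hsort rr
    (fun j => ⟨lt_of_le_of_ne (hr0 j) (hrne j).symm, hr1 j⟩) hrinj
  obtain ⟨z, hz⟩ : ∃ z : Fin t → H, z = fun j => G j - fl j • ϖ := ⟨_, rfl⟩
  have hz' : ∀ j, G j = z j + fl j • ϖ := fun j => by rw [hz]; simp
  have hSz : ∀ j, Sp Γ (z j) (rr j / (D * M)) := by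
    intro j
    have h1 := (hG2 j).sub (hSϖ.zsmul hΓ0.le (fl j))
    rw [hz]
    convert h1 using 1
    have h2 := hrr' j
    field_simp
    linarith
  obtain ⟨m, hm⟩ : ∃ m : Fin (t + 1) → H, m = fun k => n k • ϖ + ∑ j, h k j • z j := ⟨_, rfl⟩
  have hSm : ∀ k, Sp Γ (m k) (((n k : ℝ) + ∑ j, (h k j : ℝ) * rr j) / (D * M)) := by
    intro k
    have h1 := (hSϖ.zsmul hΓ0.le (n k)).add
      (Sp.sum hΓ0.le univ fun j _ => (hSz j).zsmul hΓ0.le (h k j))
    rw [hm]
    convert h1 using 1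
    rw [add_div, Finset.sum_div]
    congr 1
    · ring
    · exact Finset.sum_congr rfl fun j _ => by ring
  have hmC : ∀ C : Fin (t + 1) → ℤ, ∑ k, C k • m k =
      (∑ k, C k * n k) • ϖ + ∑ j, (∑ k, C k * h k j) • z j := by
    intro C
    have e1 : ∀ k, C k • m k = (C k * n k) • ϖ + ∑ j, (C k * h k j) • z j := by
      intro k
      rw [hm]
      simp only
      rw [smul_add, smul_smul, Finset.smul_sum]
      congr 1
      exact Finset.sum_congr rfl fun j _ => smul_smul _ _ _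
    rw [Finset.sum_congr rfl fun k _ => e1 k, Finset.sum_add_distrib, ← Finset.sum_smul,
      Finset.sum_comm]
    congr 1
    exact Finset.sum_congr rfl fun j _ => (Finset.sum_smul).symm
  obtain ⟨E, hE⟩ : ∃ E : Fin (t + 1 + r) → Fin (t + 1) → ℤ, E = fun i k =>
    (M * A1 i + ∑ j, A i j * fl j) + ∑ j, A i j * (S k j : ℤ) := ⟨_, rfl⟩
  have hEm : ∀ i, ∑ k, E i k • m k =
      (M * A1 i + ∑ j, A i j * fl j) • ϖ + ∑ j, A i j • z j := by
    intro i
    rw [hmC]
    congr 1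
    · congr 1
      rw [hE]
      simp only
      have : ∀ k, (M * A1 i + ∑ j, A i j * fl j + ∑ j, A i j * (S k j : ℤ)) * n k =
          (M * A1 i + ∑ j, A i j * fl j) * n k + ∑ j, A i j * ((S k j : ℤ) * n k) := by
        intro k
        rw [add_mul, Finset.sum_mul]
        congr 1
        exact Finset.sum_congr rfl fun j _ => by ring
      rw [Finset.sum_congr rfl fun k _ => this k, Finset.sum_add_distrib, ← Finset.mul_sum, hs2,
        mul_one, Finset.sum_comm]
      have h0 : ∀ j, ∑ k, A i j * ((S k j : ℤ) * n k) = 0 := by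
        intro j
        rw [← Finset.mul_sum, hs5 j, mul_zero]
      rw [Finset.sum_congr rfl fun j _ => h0 j, Finset.sum_const_zero, add_zero]
    · refine Finset.sum_congr rfl fun j _ => ?_
      congr 1
      rw [hE]
      simp only
      have : ∀ k, (M * A1 i + ∑ j, A i j * fl j + ∑ l, A i l * (S k l : ℤ)) * h k j =
          (M * A1 i + ∑ j, A i j * fl j) * h k j + ∑ l, A i l * ((S k l : ℤ) * h k j) := by
        intro k
        rw [add_mul, Finset.sum_mul]
        congr 1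
        exact Finset.sum_congr rfl fun l _ => by ring
      rw [Finset.sum_congr rfl fun k _ => this k, Finset.sum_add_distrib, ← Finset.mul_sum, hs3,
        mul_zero, zero_add, Finset.sum_comm]
      have h0 : ∀ l, ∑ k, A i l * ((S k l : ℤ) * h k j) = if l = j then A i l else 0 := by
        intro l
        rw [← Finset.mul_sum, hs6 l j]
        split_ifs <;> simp
      rw [Finset.sum_congr rfl fun l _ => h0 l, Finset.sum_ite_eq' univ j (fun l => A i l),
        if_pos (Finset.mem_univ j)]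
  have hE0 : ∀ i k, ∑ l, |(B i l : ℝ)| ≤ (E i k : ℝ) ∨ (σ i = 0 ∧ E i k = 0) := by
    intro i k
    by_cases hi : σ i = 0
    · right
      obtain ⟨h1, h2, -⟩ := hA' i hi
      refine ⟨hi, ?_⟩
      rw [hE]
      simp [h1, h2]
    · left
      have e1 : σ i = (A1 i : ℝ) / D + ∑ j, (A i j : ℝ) * (ρ j / D) := by
        refine (hσ i).unique hΓ0 ?_
        rw [hA i, hϖM]
        have h1 := (((hSϖ.zsmul hΓ0.le (M : ℤ)).zsmul hΓ0.le (A1 i)).add
          (Sp.sum hΓ0.le univ fun j _ => (hG2 j).zsmul hΓ0.le (A i j))).add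
          (Sp.sum hΓ0.le univ fun l _ => (hf l).2.1.zsmul hΓ0.le (B i l))
        convert h1 using 1
        simp only [mul_zero, Finset.sum_const_zero, add_zero]
        congr 1
        push_cast
        field_simp
      have e3 : (E i k : ℝ) = D * M * σ i + ∑ j, (A i j : ℝ) * ((S k j : ℝ) - rr j) := by
        rw [e1, hE]
        push_cast
        have h2 : (D : ℝ) * M * ((A1 i : ℝ) / D + ∑ j, (A i j : ℝ) * (ρ j / D)) =
            M * A1 i + ∑ j, (A i j : ℝ) * (M * ρ j) := by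
          rw [mul_add, Finset.mul_sum]
          congr 1
          · field_simp
          · exact Finset.sum_congr rfl fun j _ => by field_simp
        rw [h2, add_assoc, add_assoc, ← Finset.sum_add_distrib, ← Finset.sum_add_distrib]
        congr 1
        refine Finset.sum_congr rfl fun j _ => ?_
        rw [hrr' j]
        ring
      have e4 : -∑ j, |(A i j : ℝ)| ≤ ∑ j, (A i j : ℝ) * ((S k j : ℝ) - rr j) := by
        rw [← Finset.sum_neg_distrib]
        refine Finset.sum_le_sum fun j _ => ?_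
        have f1 : |(S k j : ℝ) - rr j| ≤ 1 := by
          have h1 : (S k j : ℝ) ≤ 1 := by exact_mod_cast hs4 k j
          have h2 : (0 : ℝ) ≤ S k j := Nat.cast_nonneg _
          rw [abs_le]
          constructor
          · linarith [hr1 j]
          · linarith [hr0 j]
        have f2 : |(A i j : ℝ) * ((S k j : ℝ) - rr j)| ≤ |(A i j : ℝ)| := by
          rw [abs_mul]
          exact mul_le_of_le_one_right (abs_nonneg _) f1
        exact (abs_le.1 f2).1
      rw [e3]
      linarith [hbig i hi]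
  have hE1 : ∀ i k, 0 ≤ E i k := by
    intro i k
    rcases hE0 i k with h1 | ⟨-, h1⟩
    · have h2 : (0 : ℝ) ≤ E i k := (Finset.sum_nonneg fun l _ => abs_nonneg _).trans h1
      exact_mod_cast h2
    · rw [h1]
  have hE2 : ∀ i l, 0 ≤ B i l + E i 0 := by
    intro i l
    rcases hE0 i 0 with h1 | ⟨h1, h2⟩
    · have h3 : |(B i l : ℝ)| ≤ ∑ l, |(B i l : ℝ)| :=
        Finset.single_le_sum (f := fun l => |(B i l : ℝ)|) (fun l _ => abs_nonneg _)
          (Finset.mem_univ l)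
      have h4 : -(B i l : ℝ) ≤ |(B i l : ℝ)| := neg_le_abs _
      have h5 : (0 : ℝ) ≤ (B i l : ℝ) + E i 0 := by linarith
      exact_mod_cast h5
    · rw [h2, add_zero]
      exact (hA' i h1).2.2 l
  obtain ⟨F, hF⟩ : ∃ F : H, F = ∑ l, f l := ⟨_, rfl⟩
  have hSF : Sp Γ F 0 := by
    have := Sp.sum hΓ0.le univ fun l _ => (hf l).2.1
    rw [Finset.sum_const_zero] at this
    rwa [hF]
  obtain ⟨mm, hmm⟩ : ∃ mm : Fin (t + 1) ⊕ Fin r → H,
    mm = Sum.elim (fun k => m k - if k = 0 then F else 0) f := ⟨_, rfl⟩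
  have hmmpos : ∀ x, 0 < mm x := by
    rintro (k | l)
    · rw [hmm]
      change 0 < m k - if k = 0 then F else 0
      have h1 : 0 < ((n k : ℝ) + ∑ j, (h k j : ℝ) * rr j) / (D * M) := div_pos (hs1 k) hNr
      split_ifs
      · have h2 := (hSm k).sub hSF
        rw [sub_zero] at h2
        exact h2.pos hΓ0 h1
      · rw [sub_zero]
        exact (hSm k).pos hΓ0 h1
    · rw [hmm]
      exact (hf l).1
  have hsum1 : ∑ k, m k = ϖ := by
    have h1 := hmC fun _ => 1
    simp only [one_smul, one_mul] at h1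
    rw [h1, hs2, one_smul, Finset.sum_congr rfl fun j _ => by rw [hs3 j, zero_smul],
      Finset.sum_const_zero, add_zero]
  have hsummm : ∑ x, mm x = ϖ := by
    rw [Fintype.sum_sum_type, hmm]
    simp only [Sum.elim_inl, Sum.elim_inr]
    rw [Finset.sum_sub_distrib, Finset.sum_ite_eq', if_pos (Finset.mem_univ _), hsum1, ← hF]
    abel
  have hemm : ∀ i, e i = ∑ x, (Sum.elim (E i) (fun l => B i l + E i 0) x) • mm x := by
    intro i
    rw [Fintype.sum_sum_type, hmm]
    simp only [Sum.elim_inl, Sum.elim_inr]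
    have h1 : ∑ k, E i k • (m k - if k = 0 then F else 0) = ∑ k, E i k • m k - E i 0 • F := by
      rw [← Finset.sum_ite_eq' univ (0 : Fin (t + 1)) (fun k => E i k • F) |>.trans
        (if_pos (Finset.mem_univ _)), ← Finset.sum_sub_distrib]
      refine Finset.sum_congr rfl fun k _ => ?_
      rw [smul_sub]
      split_ifs <;> simp
    have h2 : ∑ l, (B i l + E i 0) • f l = ∑ l, B i l • f l + E i 0 • F := by
      rw [hF, Finset.smul_sum, ← Finset.sum_add_distrib]
      exact Finset.sum_congr rfl fun l _ => add_smul _ _ _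
    rw [h1, h2, hEm, hA i, hϖM]
    have h3 : ∑ j, A i j • G j = ∑ j, A i j • z j + (∑ j, A i j * fl j) • ϖ := by
      rw [Finset.sum_smul, ← Finset.sum_add_distrib]
      exact Finset.sum_congr rfl fun j _ => by rw [hz' j, smul_add, smul_smul]
    rw [h3, add_smul, mul_smul, smul_comm (M : ℤ) (A1 i) ϖ]
    abel
  have hmem : ∀ x, ∃ (a : ℤ) (g : Fin (t + 1 + r) → ℤ), mm x = a • ϖ + ∑ k, g k • e k := by
    have hle : ∀ y, y ∈ Submodule.span ℤ (Set.range e) ⊔ Submodule.span ℤ {ϖ} →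
        ∃ (a : ℤ) (g : Fin (t + 1 + r) → ℤ), y = a • ϖ + ∑ k, g k • e k := by
      intro y hy
      obtain ⟨y1, h1, y2, h2, rfl⟩ := Submodule.mem_sup.1 hy
      obtain ⟨g, rfl⟩ := (Submodule.mem_span_range_iff_exists_fun ℤ).1 h1
      obtain ⟨a, rfl⟩ := Submodule.mem_span_singleton.1 h2
      exact ⟨a, g, add_comm _ _⟩
    set W := Submodule.span ℤ (Set.range e) ⊔ Submodule.span ℤ {ϖ} with hW
    have hϖW : ϖ ∈ W := Submodule.mem_sup_right (Submodule.mem_span_singleton_self _)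
    have hGW : ∀ j, G j ∈ W := fun j => Submodule.mem_sup_left (hG1 j)
    have hzW : ∀ j, z j ∈ W := fun j => by
      rw [hz]
      exact W.sub_mem (hGW j) (W.smul_mem _ hϖW)
    have hmW : ∀ k, m k ∈ W := fun k => by
      rw [hm]
      exact W.add_mem (W.smul_mem _ hϖW) (W.sum_mem fun j _ => W.smul_mem _ (hzW j))
    have hfW : ∀ l, f l ∈ W := fun l => by
      have h1 : Submodule.span ℤ (Set.range e) ⊔ Submodule.span ℤ {(1 / D : ℚ) • Γ} ≤ W := by
        refine sup_le le_sup_left ?_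
        rw [Submodule.span_singleton_le_iff_mem, hϖM]
        exact W.smul_mem _ hϖW
      exact h1 (hf l).2.2
    intro x
    apply hle
    rw [hmm]
    rcases x with k | l
    · refine W.sub_mem (hmW k) ?_
      split_ifs
      · rw [hF]
        exact W.sum_mem fun l _ => hfW l
      · exact W.zero_mem
    · exact hfW l
  choose a g hag using hmem
  obtain ⟨q, hq⟩ : ∃ q : Fin (t + 1) ⊕ Fin r ≃ Fin (t + 1 + r), q = finSumFinEquiv := ⟨_, rfl⟩
  refine ⟨fun j => a (q.symm j), fun j => g (q.symm j),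
    fun i j => (Sum.elim (E i) (fun l => B i l + E i 0) (q.symm j)).toNat, fun j => ?_,
    fun i => ?_, ?_⟩
  · rw [← hag]
    exact hmmpos _
  · rw [← q.sum_comp, hemm i]
    refine Finset.sum_congr rfl fun x _ => ?_
    simp only [q.symm_apply_apply]
    rw [← hag, ← natCast_zsmul, Int.toNat_of_nonneg]
    rcases x with k | l
    · exact hE1 i k
    · exact hE2 i l
  · rw [← q.sum_comp]
    refine Eq.trans ?_ hsummm
    refine Finset.sum_congr rfl fun x _ => ?_
    simp only [q.symm_apply_apply]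
    exact (hag x).symm

end Pool.Agent.W5h94.HR
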