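import Mathlib

/-!
# Positive bases of lattices in ordered groups (Perron's algorithm)
-/

set_option autoImplicit false

namespace Pool.Agent.W5h94.HR

open Finset

variable {H : Type*} [AddCommGroup H] [LinearOrder H] [IsOrderedAddMonoid H]

/-- The cone. -/
abbrev cone {r : ℕ} (f : Fin r → H) : AddSubmonoid H := AddSubmonoid.closure (Set.range f)

/-- A positive basis which refines `b`. -/
structure Fine {r : ℕ} (b f : Fin r → H) : Prop where
  pos : ∀ i, 0 < f i
  li : LinearIndependent ℤ f
  mem : ∀ i, f i ∈ Submodule.span ℤ (Set.range b)
  le : ∀ i, b i ∈ cone f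

lemma self_mem {r : ℕ} (b : Fin r → H) (i : Fin r) : b i ∈ cone b :=
  AddSubmonoid.subset_closure ⟨i, rfl⟩

lemma Fine.refl {r : ℕ} {b : Fin r → H} (hb : ∀ i, 0 < b i) (hl : LinearIndependent ℤ b) :
    Fine b b :=
  ⟨hb, hl, fun i => Submodule.subset_span ⟨i, rfl⟩, self_mem b⟩

lemma Fine.cone_le {r : ℕ} {b f : Fin r → H} (h : Fine b f) : cone b ≤ cone f := by
  rw [AddSubmonoid.closure_le]
  rintro _ ⟨i, rfl⟩
  exact h.le i

lemma Fine.trans {r : ℕ} {b c f : Fin r → H} (h : Fine b c) (h' : Fine c f) : Fine b f := by
  refine ⟨h'.pos, h'.li, fun i => ?_, fun i => h'.cone_le (h.le i)⟩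
  have h1 : Submodule.span ℤ (Set.range c) ≤ Submodule.span ℤ (Set.range b) := by
    rw [Submodule.span_le]
    rintro _ ⟨i, rfl⟩
    exact h.mem i
  exact h1 (h'.mem i)

/-- The goal. -/
def Cmp {r : ℕ} (b : Fin r → H) (c : Fin r → ℤ) : Prop :=
  ∃ f : Fin r → H, Fine b f ∧ (∑ i, c i • b i ∈ cone f ∨ -∑ i, c i • b i ∈ cone f)

lemma Cmp.neg {r : ℕ} {b : Fin r → H} {c : Fin r → ℤ} (h : Cmp b (fun i => -c i)) : Cmp b c := by
  obtain ⟨f, h1, h2⟩ := h
  have e : ∑ i, (-c i) • b i = -∑ i, c i • b i := by
    rw [← Finset.sum_neg_distrib]
    exact Finset.sum_congr rfl fun i _ => neg_smul _ _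
  rw [e, neg_neg] at h2
  exact ⟨f, h1, h2.symm⟩

lemma cmp_nonneg {r : ℕ} {b : Fin r → H} (hb : ∀ i, 0 < b i) (hl : LinearIndependent ℤ b)
    {c : Fin r → ℤ} (hc : ∀ i, 0 ≤ c i) : Cmp b c := by
  refine ⟨b, Fine.refl hb hl, Or.inl (AddSubmonoid.sum_mem _ fun i _ => ?_)⟩
  obtain ⟨n, hn⟩ := Int.eq_ofNat_of_zero_le (hc i)
  rw [hn]
  have : ((n : ℤ)) • b i = n • b i := natCast_zsmul _ _
  rw [this]
  exact AddSubmonoid.nsmul_mem _ (self_mem b i) n

/-- The step. -/
lemma cmp_step {r : ℕ} {b : Fin r → H} (hb : ∀ i, 0 < b i) (hl : LinearIndependent ℤ b)
    {i j : Fin r} (hij : i ≠ j) (hlt : b j < b i) {c : Fin r → ℤ}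
    (h : (∀ k, 0 < Function.update b i (b i - b j) k) →
      LinearIndependent ℤ (Function.update b i (b i - b j)) →
      Cmp (Function.update b i (b i - b j)) (Function.update c j (c j + c i))) : Cmp b c := by
  classical
  set b' : Fin r → H := Function.update b i (b i - b j) with hb'
  have h1 : ∀ k, k ≠ i → b' k = b k := fun k hk => Function.update_of_ne hk _ _
  have h2 : b' i = b i - b j := Function.update_self _ _ _
  have hpos : ∀ k, 0 < b' k := by
    intro k
    by_cases hk : k = i
    · subst hk
      rw [h2]
      exact sub_pos.2 hlt
    · rw [h1 k hk]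
      exact hb k
  have hsum : ∀ a : Fin r → ℤ, ∑ k, a k • b' k =
      ∑ k, (Function.update a j (a j - a i)) k • b k := by
    intro a
    have hji : j ≠ i := hij.symm
    have e1 : ∑ k, a k • b' k = ∑ k, a k • b k - a i • b j := by
      rw [← Finset.add_sum_erase _ _ (Finset.mem_univ i), ← Finset.add_sum_erase (a := i) univ
        (fun k => a k • b k) (Finset.mem_univ i), h2, smul_sub]
      have : ∑ k ∈ univ.erase i, a k • b' k = ∑ k ∈ univ.erase i, a k • b k :=
        Finset.sum_congr rfl fun k hk => by rw [h1 k (Finset.ne_of_mem_erase hk)]
      rw [this]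
      abel
    have e2 : ∑ k, (Function.update a j (a j - a i)) k • b k =
        ∑ k, a k • b k - a i • b j := by
      rw [← Finset.add_sum_erase _ _ (Finset.mem_univ j), ← Finset.add_sum_erase (a := j) univ
        (fun k => a k • b k) (Finset.mem_univ j), Function.update_self, sub_smul]
      have : ∑ k ∈ univ.erase j, Function.update a j (a j - a i) k • b k =
          ∑ k ∈ univ.erase j, a k • b k :=
        Finset.sum_congr rfl fun k hk => by
          rw [Function.update_of_ne (Finset.ne_of_mem_erase hk)]
      rw [this]
      abel
    rw [e1, e2]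
  have hli : LinearIndependent ℤ b' := by
    rw [Fintype.linearIndependent_iff]
    intro a ha
    rw [hsum a] at ha
    have h3 := Fintype.linearIndependent_iff.1 hl _ ha
    have h4 : a i = 0 := by
      have := h3 i
      rwa [Function.update_of_ne hij] at this
    intro k
    by_cases hk : k = j
    · subst hk
      have := h3 k
      rw [Function.update_self, h4, sub_zero] at this
      exact this
    · have := h3 k
      rwa [Function.update_of_ne hk] at this
  obtain ⟨f, hf, hf'⟩ := h hpos hli
  have hF : Fine b b' := by
    refine ⟨hpos, hli, fun k => ?_, fun k => ?_⟩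
    · by_cases hk : k = i
      · subst hk
        rw [h2]
        exact Submodule.sub_mem _ (Submodule.subset_span ⟨_, rfl⟩) (Submodule.subset_span ⟨_, rfl⟩)
      · rw [h1 k hk]
        exact Submodule.subset_span ⟨_, rfl⟩
    · by_cases hk : k = i
      · subst hk
        have : b k = b' k + b' j := by
          rw [h2, h1 j hij.symm]
          abel
        rw [this]
        exact AddSubmonoid.add_mem _ (self_mem _ _) (self_mem _ _)
      · rw [← h1 k hk]
        exact self_mem _ _
  refine ⟨f, hF.trans hf, ?_⟩
  have e : ∑ k, (Function.update c j (c j + c i)) k • b' k = ∑ k, c k • b k := by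
    rw [hsum]
    refine Finset.sum_congr rfl fun k _ => ?_
    congr 1
    by_cases hk : k = j
    · subst hk
      rw [Function.update_self, Function.update_self, Function.update_of_ne hij]
      ring
    · rw [Function.update_of_ne hk, Function.update_of_ne hk]
  rw [e] at hf'
  exact hf'

lemma cmp_of_bound {r : ℕ} (M k : ℕ) : ∀ (b : Fin r → H), (∀ i, 0 < b i) →
    LinearIndependent ℤ b → ∀ c : Fin r → ℤ, (∀ i, |c i| ≤ M) →
    (univ.filter fun i => |c i| = M).card ≤ k → Cmp b c := by
  classical
  induction M generalizing k with
  | zero =>
    intro b hb hl c hc _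
    refine cmp_nonneg hb hl fun i => ?_
    have := hc i
    have h0 : |c i| ≤ 0 := by exact_mod_cast this
    have h1 : c i = 0 := abs_nonpos_iff.1 h0
    rw [h1]
  | succ M ihM =>
    have small : ∀ (b : Fin r → H), (∀ i, 0 < b i) → LinearIndependent ℤ b → ∀ c : Fin r → ℤ,
        (∀ i, |c i| ≤ (M + 1 : ℕ)) → (∀ i, |c i| ≠ (M + 1 : ℕ)) → Cmp b c := by
      intro b hb hl c hc hne
      refine ihM r b hb hl c (fun i => ?_) ((Finset.card_le_univ _).trans (by simp))
      have h1 := hc i
      have h2 := hne i
      push_cast at h1 h2 ⊢
      omega
    induction k with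
    | zero =>
      intro b hb hl c hc hk
      refine small b hb hl c hc fun i hi => ?_
      have : i ∈ univ.filter fun i => |c i| = ((M + 1 : ℕ) : ℤ) := by simp [hi]
      rw [Finset.card_eq_zero.1 (Nat.le_zero.1 hk)] at this
      exact absurd this (Finset.notMem_empty i)
    | succ k ihk =>
      have inner : ∀ (l : ℕ) (b : Fin r → H), (∀ i, 0 < b i) → LinearIndependent ℤ b →
          ∀ c : Fin r → ℤ, (∀ i, |c i| ≤ (M + 1 : ℕ)) →
          (univ.filter fun i => |c i| = ((M + 1 : ℕ) : ℤ)).card ≤ k + 1 →
          (∃ i, c i = (M + 1 : ℕ)) → (univ.filter fun i => c i < 0).card ≤ l → Cmp b c := by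
        intro l
        induction l with
        | zero =>
          intro b hb hl c hc _ _ hneg
          refine cmp_nonneg hb hl fun i => ?_
          by_contra hcon
          have : i ∈ univ.filter fun i => c i < 0 := by simpa using hcon
          rw [Finset.card_eq_zero.1 (Nat.le_zero.1 hneg)] at this
          exact absurd this (Finset.notMem_empty i)
        | succ l ihl =>
          intro b hb hl c hc hk hex hneg
          by_cases hall : ∀ i, 0 ≤ c i
          · exact cmp_nonneg hb hl hall
          push Not at hall
          obtain ⟨j, hj⟩ := hall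
          obtain ⟨i, hi⟩ := hex
          have hij : i ≠ j := by
            rintro rfl
            rw [hi] at hj
            push_cast at hj
            omega
          have hjb := abs_le.1 (hc j)
          have hbne : b i ≠ b j := fun h => hij (hl.injective h)
          rcases lt_or_gt_of_ne hbne with hlt | hlt
          · -- `b i < b j`
            refine cmp_step hb hl (i := j) (j := i) hij.symm hlt fun hp' hl' => ?_
            refine ihk _ hp' hl' _ (fun m => ?_) ?_
            · by_cases hm : m = i
              · subst hm
                rw [Function.update_self, hi, abs_le]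
                push_cast at hjb ⊢
                omega
              · rw [Function.update_of_ne hm]
                exact hc m
            · have hlt : (univ.filter fun m => |(Function.update c i (c i + c j)) m| =
                  ((M + 1 : ℕ) : ℤ)) ⊂ univ.filter fun m => |c m| = ((M + 1 : ℕ) : ℤ) := by
                rw [Finset.ssubset_iff_of_subset]
                · refine ⟨i, ?_, ?_⟩
                  · rw [Finset.mem_filter]
                    refine ⟨Finset.mem_univ _, ?_⟩
                    rw [hi]
                    exact abs_of_nonneg (by positivity)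
                  · rw [Finset.mem_filter, Function.update_self, hi]
                    rintro ⟨-, h⟩
                    rw [abs_of_nonneg (by push_cast at hjb ⊢; omega)] at h
                    omega
                · intro m hm
                  rw [Finset.mem_filter] at hm ⊢
                  refine ⟨Finset.mem_univ _, ?_⟩
                  by_cases hm' : m = i
                  · subst hm'
                    rw [hi]
                    exact abs_of_nonneg (by positivity)
                  · rw [Function.update_of_ne hm'] at hm
                    exact hm.2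
              have := Finset.card_lt_card hlt
              omega
          · -- `b j < b i`
            refine cmp_step hb hl (i := i) (j := j) hij hlt fun hp' hl' => ?_
            refine ihl _ hp' hl' _ (fun m => ?_) ?_ ?_ ?_
            · by_cases hm : m = j
              · subst hm
                rw [Function.update_self, hi, abs_le]
                push_cast at hjb ⊢
                omega
              · rw [Function.update_of_ne hm]
                exact hc m
            · refine le_trans (Finset.card_le_card ?_) hk
              intro m hm
              rw [Finset.mem_filter] at hm ⊢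
              refine ⟨Finset.mem_univ _, ?_⟩
              by_cases hm' : m = j
              · subst hm'
                exfalso
                have h := hm.2
                rw [Function.update_self, hi,
                  abs_of_nonneg (by push_cast at hjb ⊢; omega)] at h
                omega
              · rw [Function.update_of_ne hm'] at hm
                exact hm.2
            · exact ⟨i, by rw [Function.update_of_ne hij, hi]⟩
            · have hlt : (univ.filter fun m => (Function.update c j (c j + c i)) m < 0) ⊂
                  univ.filter fun m => c m < 0 := by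
                rw [Finset.ssubset_iff_of_subset]
                · refine ⟨j, by simpa using hj, ?_⟩
                  rw [Finset.mem_filter, Function.update_self, hi]
                  rintro ⟨-, h⟩
                  push_cast at hjb h
                  omega
                · intro m hm
                  rw [Finset.mem_filter] at hm ⊢
                  refine ⟨Finset.mem_univ _, ?_⟩
                  by_cases hm' : m = j
                  · subst hm'
                    exact hj
                  · rw [Function.update_of_ne hm'] at hm
                    exact hm.2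
              have := Finset.card_lt_card hlt
              omega
      intro b hb hl c hc hk
      by_cases hex : ∃ i, |c i| = (M + 1 : ℕ)
      · obtain ⟨i, hi⟩ := hex
        rcases abs_eq (by positivity) |>.1 hi with h | h
        · exact inner r b hb hl c hc hk ⟨i, h⟩ ((Finset.card_le_univ _).trans (by simp))
        · refine Cmp.neg (inner r b hb hl _ (fun i => by rw [abs_neg]; exact hc i) ?_
            ⟨i, by rw [h, neg_neg]⟩ ((Finset.card_le_univ _).trans (by simp)))
          simp only [abs_neg]
          exact hk
      · push Not at hex
        exact small b hb hl c hc hex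

theorem perron_one {r : ℕ} {b : Fin r → H} (hb : ∀ i, 0 < b i) (hl : LinearIndependent ℤ b)
    {a : H} (ha : a ∈ Submodule.span ℤ (Set.range b)) (ha0 : 0 ≤ a) :
    ∃ f : Fin r → H, Fine b f ∧ a ∈ cone f := by
  obtain ⟨c, rfl⟩ := (Submodule.mem_span_range_iff_exists_fun ℤ).1 ha
  obtain ⟨f, hf, h⟩ := cmp_of_bound (∑ i, (c i).natAbs) r b hb hl c (fun i => by
    rw [Int.abs_eq_natAbs]
    exact_mod_cast Finset.single_le_sum (f := fun i => (c i).natAbs) (fun i _ => Nat.zero_le _)
      (Finset.mem_univ i)) ((Finset.card_le_univ _).trans (by simp))
  refine ⟨f, hf, ?_⟩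
  rcases h with h | h
  · exact h
  · have hpos : ∀ z ∈ cone f, 0 ≤ z := by
      intro z hz
      induction hz using AddSubmonoid.closure_induction with
      | mem x hx => obtain ⟨i, rfl⟩ := hx; exact (hf.pos i).le
      | zero => exact le_rfl
      | add x y _ _ hx hy => exact add_nonneg hx hy
    have h1 := hpos _ h
    have h2 : ∑ i, c i • b i = 0 := le_antisymm (neg_nonneg.1 h1) ha0
    rw [h2]
    exact AddSubmonoid.zero_mem _

/-- Perron's algorithm. -/
theorem perron {r : ℕ} {b : Fin r → H} (hb : ∀ i, 0 < b i) (hl : LinearIndependent ℤ b)
    {κ : Type*} (S : Finset κ) (a : κ → H)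
    (ha : ∀ k ∈ S, a k ∈ Submodule.span ℤ (Set.range b) ∧ 0 ≤ a k) :
    ∃ f : Fin r → H, Fine b f ∧ ∀ k ∈ S, a k ∈ cone f := by
  classical
  induction S using Finset.induction_on with
  | empty => exact ⟨b, Fine.refl hb hl, fun k hk => absurd hk (Finset.notMem_empty k)⟩
  | insert x S hx ih =>
    obtain ⟨f, h1, h2⟩ := ih fun k hk => ha k (Finset.mem_insert_of_mem hk)
    obtain ⟨h3, h4⟩ := ha x (Finset.mem_insert_self _ _)
    have h5 : Submodule.span ℤ (Set.range b) ≤ Submodule.span ℤ (Set.range f) := by
      rw [Submodule.span_le]
      rintro _ ⟨i, rfl⟩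
      have h6 : cone f ≤ (Submodule.span ℤ (Set.range f)).toAddSubmonoid := by
        rw [AddSubmonoid.closure_le]
        exact Submodule.subset_span
      exact h6 (h1.le i)
    obtain ⟨f', h6, h7⟩ := perron_one h1.pos h1.li (h5 h3) h4
    refine ⟨f', h1.trans h6, fun k hk => ?_⟩
    rcases Finset.mem_insert.1 hk with rfl | hk
    · exact h7
    · exact h6.cone_le (h2 k hk)

end Pool.Agent.W5h94.HR
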