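import Pool.Agent.W5h94.HR.Perron
import Pool.Agent.W5h94.HR.Std

/-!
# The infinitesimal part of a lattice
-/

set_option autoImplicit false
set_option linter.unusedSectionVars false

namespace Pool.Agent.W5h94.HR

open Finset

/-- Completion of a primitive vector to a basis. -/
def Plat : Prop :=
  ∀ {s : ℕ} (γ : Fin s → ℤ), (∃ c : Fin s → ℤ, ∑ i, c i * γ i = 1) →
    ∃ (t : ℕ) (_ : s = t + 1) (g : Fin t → Fin s → ℤ) (a1 : Fin s → ℤ) (a : Fin s → Fin t → ℤ),
      (∀ i, Pi.single i 1 = a1 i • γ + ∑ j, a i j • g j) ∧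
      ∀ (n : ℤ) (b : Fin t → ℤ), n • γ + ∑ j, b j • g j = 0 → n = 0 ∧ b = 0

/-- The content of an integer vector. -/
lemma exists_cont {s : ℕ} (γ : Fin s → ℤ) (h : γ ≠ 0) : ∃ (d : ℕ) (γ0 c : Fin s → ℤ), 0 < d ∧
    (∀ i, γ i = d * γ0 i) ∧ ∑ i, c i * γ0 i = 1 := by
  classical
  obtain ⟨D, hD⟩ : ∃ D : ℤ, Ideal.span (Set.range γ) = Ideal.span {D} :=
    (IsPrincipalIdealRing.principal (Ideal.span (Set.range γ))).principal
  rw [← Int.span_natAbs] at hD
  have h1 : ∀ i, ((D.natAbs : ℕ) : ℤ) ∣ γ i := fun i => by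
    rw [← Ideal.mem_span_singleton, ← hD]
    exact Ideal.subset_span ⟨i, rfl⟩
  choose γ0 hγ0 using h1
  have h2 : ((D.natAbs : ℕ) : ℤ) ∈ Ideal.span (Set.range γ) := by
    rw [hD]
    exact Ideal.mem_span_singleton_self _
  obtain ⟨c, hc⟩ := (Ideal.mem_span_range_iff_exists_fun (R := ℤ)).1 h2
  have hd : 0 < D.natAbs := by
    rw [Nat.pos_iff_ne_zero]
    intro h3
    apply h
    funext i
    rw [hγ0 i, h3]
    simp
  refine ⟨D.natAbs, γ0, c, hd, hγ0, ?_⟩
  have h3 : ((D.natAbs : ℕ) : ℤ) * (∑ i, c i * γ0 i) = ((D.natAbs : ℕ) : ℤ) * 1 := by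
    rw [mul_one]
    nth_rewrite 2 [← hc]
    rw [Finset.mul_sum]
    refine Finset.sum_congr rfl fun i _ => ?_
    rw [hγ0 i]
    ring
  exact mul_left_cancel₀ (by exact_mod_cast hd.ne') h3

variable {H : Type*} [AddCommGroup H] [LinearOrder H] [IsOrderedAddMonoid H] [Module ℚ H]
  [IsStrictOrderedModule ℚ H]

/-- The infinitesimal elements of a submodule. -/
def infs (Γ : H) (hΓ : 0 ≤ Γ) (L : Submodule ℤ H) : Submodule ℤ H where
  carrier := {a | a ∈ L ∧ Sp Γ a 0}
  add_mem' := by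
    rintro a b ⟨h1, h2⟩ ⟨h3, h4⟩
    refine ⟨L.add_mem h1 h3, ?_⟩
    have := h2.add h4
    rwa [add_zero] at this
  zero_mem' := ⟨L.zero_mem, Sp.zero hΓ⟩
  smul_mem' := by
    rintro c a ⟨h1, h2⟩
    refine ⟨L.smul_mem c h1, ?_⟩
    have := h2.zsmul hΓ c
    rwa [mul_zero] at this

lemma mem_infs {Γ : H} {hΓ : 0 ≤ Γ} {L : Submodule ℤ H} {a : H} :
    a ∈ infs Γ hΓ L ↔ a ∈ L ∧ Sp Γ a 0 := Iff.rfl

/-- A positive basis of a finitely generated submodule, refining finitely many nonnegative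
elements. -/
theorem pos_basis (L : Submodule ℤ H) (hL : L.FG) {κ : Type*} (S : Finset κ) (a : κ → H)
    (ha : ∀ k ∈ S, a k ∈ L ∧ 0 ≤ a k) :
    ∃ (r : ℕ) (f : Fin r → H), (∀ l, 0 < f l) ∧ LinearIndependent ℤ f ∧ (∀ l, f l ∈ L) ∧
      (∀ z ∈ L, ∃ c : Fin r → ℤ, z = ∑ l, c l • f l) ∧
      ∀ k ∈ S, ∃ c : Fin r → ℤ, (∀ l, 0 ≤ c l) ∧ a k = ∑ l, c l • f l := by
  classical
  have : Module.Finite ℤ L := Module.Finite.iff_fg.2 hL
  have hfree : Module.Free ℤ L := inferInstance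
  let B0 := Module.finBasis ℤ L
  let B := B0.unitsSMul (fun l => if 0 < (B0 l : H) then (1 : ℤˣ) else -1)
  have hB : ∀ l, 0 < (B l : H) := by
    intro l
    have h1 : B l = (if 0 < (B0 l : H) then (1 : ℤˣ) else -1) • B0 l := Module.Basis.unitsSMul_apply l
    rw [h1]
    have h0 : (B0 l : H) ≠ 0 := fun h => B0.ne_zero l (Subtype.ext h)
    split_ifs with h
    · rw [one_smul]; exact h
    · rw [Units.neg_smul, one_smul]
      push Not at h
      exact neg_pos.2 (lt_of_le_of_ne h h0)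
  have hli : LinearIndependent ℤ (fun l => (B l : H)) :=
    B.linearIndependent.map' L.subtype L.ker_subtype
  have hsp : ∀ z ∈ L, z ∈ Submodule.span ℤ (Set.range fun l => (B l : H)) := by
    intro z hz
    have h1 := B.sum_repr ⟨z, hz⟩
    have h2 : ∑ l, ((B.repr ⟨z, hz⟩ l • B l : L) : H) = z := by
      rw [← Submodule.coe_sum, h1]
    rw [← h2]
    exact Submodule.sum_mem _ fun l _ => Submodule.smul_mem _ _ (Submodule.subset_span ⟨l, rfl⟩)
  obtain ⟨f, hf, hfS⟩ := perron hB hli S a fun k hk => ⟨hsp _ (ha k hk).1, (ha k hk).2⟩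
  refine ⟨_, f, hf.pos, hf.li, fun l => ?_, fun z hz => ?_, fun k hk => ?_⟩
  · have h1 : Submodule.span ℤ (Set.range fun l => (B l : H)) ≤ L := by
      rw [Submodule.span_le]
      rintro _ ⟨i, rfl⟩
      exact (B i).2
    exact h1 (hf.mem l)
  · have h5 : Submodule.span ℤ (Set.range fun l => (B l : H)) ≤
        Submodule.span ℤ (Set.range f) := by
      rw [Submodule.span_le]
      rintro _ ⟨i, rfl⟩
      have h6 : cone f ≤ (Submodule.span ℤ (Set.range f)).toAddSubmonoid := by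
        rw [AddSubmonoid.closure_le]
        exact Submodule.subset_span
      exact h6 (hf.le i)
    obtain ⟨c, hc⟩ := (Submodule.mem_span_range_iff_exists_fun ℤ).1 (h5 (hsp z hz))
    exact ⟨c, hc.symm⟩
  · have h6 : ∀ z ∈ cone f, ∃ c : Fin _ → ℤ, (∀ l, 0 ≤ c l) ∧ z = ∑ l, c l • f l := by
      intro z hz
      induction hz using AddSubmonoid.closure_induction with
      | mem x hx =>
        obtain ⟨i, rfl⟩ := hx
        refine ⟨Pi.single i 1, fun l => ?_, ?_⟩
        · by_cases h : l = i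
          · subst h; rw [Pi.single_eq_same]; exact zero_le_one
          · rw [Pi.single_eq_of_ne h]
        · rw [Finset.sum_eq_single i, Pi.single_eq_same, one_smul]
          · intro l _ hl
            rw [Pi.single_eq_of_ne hl, zero_smul]
          · exact fun h => absurd (Finset.mem_univ i) h
      | zero => exact ⟨0, fun _ => le_rfl, by simp⟩
      | add x y _ _ hx hy =>
        obtain ⟨c, h1, rfl⟩ := hx
        obtain ⟨d, h2, rfl⟩ := hy
        refine ⟨c + d, fun l => add_nonneg (h1 l) (h2 l), ?_⟩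
        rw [← Finset.sum_add_distrib]
        exact Finset.sum_congr rfl fun l _ => by rw [Pi.add_apply, add_smul]
    exact h6 _ (hfS k hk)

/-- The coordinates. -/
theorem skel (hlat : Plat) {s : ℕ} (e : Fin s → H) (he : ∀ i, 0 < e i)
    (hli : LinearIndependent ℤ e) (γ : Fin s → ℤ) (Γ : H) (hΓ : Γ = ∑ i, γ i • e i) (hΓ0 : 0 < Γ)
    (hbd : ∀ i, ∃ n : ℕ, e i ≤ n • Γ) :
    ∃ (D t r : ℕ) (c : Fin s → ℤ) (G : Fin t → H) (ρ : Fin t → ℝ) (f : Fin r → H)
      (σ : Fin s → ℝ) (A1 : Fin s → ℤ) (A : Fin s → Fin t → ℤ) (B : Fin s → Fin r → ℤ),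
      0 < D ∧ s = t + 1 + r ∧ Sp Γ (Γ - (D : ℤ) • ∑ i, c i • e i) 0 ∧
      (∀ j, G j ∈ Submodule.span ℤ (Set.range e)) ∧ (∀ j, Sp Γ (G j) (ρ j / D)) ∧
      (∀ l, 0 < f l ∧ Sp Γ (f l) 0 ∧ f l ∈ Submodule.span ℤ (Set.range e) ⊔
        Submodule.span ℤ {(1 / D : ℚ) • Γ}) ∧
      (∀ i, Sp Γ (e i) (σ i)) ∧
      (∀ i, e i = A1 i • ((1 / D : ℚ) • Γ) + ∑ j, A i j • G j + ∑ l, B i l • f l) ∧
      (∀ i, σ i = 0 → A1 i = 0 ∧ (∀ j, A i j = 0) ∧ ∀ l, 0 ≤ B i l) ∧
      ∀ (x : ℤ) (y : Fin t → ℤ), (x : ℝ) + ∑ j, (y j : ℝ) * ρ j = 0 → x = 0 ∧ y = 0 := by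
  classical
  have hσ : ∀ i, ∃ x, Sp Γ (e i) x := fun i => by
    obtain ⟨n, hn⟩ := hbd i
    exact exists_sp hΓ0 (he i).le hn
  choose σ hσ using hσ
  let ev : (Fin s → ℤ) →ₗ[ℤ] H := Fintype.linearCombination ℤ e
  have hev : ∀ δ, ev δ = ∑ i, δ i • e i := fun δ => Fintype.linearCombination_apply ℤ e δ
  let φ : (Fin s → ℤ) →ₗ[ℤ] ℝ := Fintype.linearCombination ℤ σ
  have hφ : ∀ δ, φ δ = ∑ i, (δ i : ℝ) * σ i := fun δ => by
    change Fintype.linearCombination ℤ σ δ = _
    rw [Fintype.linearCombination_apply]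
    exact Finset.sum_congr rfl fun i _ => zsmul_eq_mul _ _
  have hSp : ∀ δ, Sp Γ (ev δ) (φ δ) := by
    intro δ
    rw [hev, hφ]
    exact Sp.sum hΓ0.le _ fun i _ => (hσ i).zsmul hΓ0.le _
  have hevs : ∀ i, ev (Pi.single i 1) = e i := fun i => by
    change Fintype.linearCombination ℤ e _ = _
    rw [Fintype.linearCombination_apply_single, one_smul]
  have hΓev : ev γ = Γ := by rw [hev, hΓ]
  have hφγ : φ γ = 1 := by
    have h1 := hSp γ
    rw [hΓev] at h1
    exact h1.unique hΓ0 (Sp.self hΓ0.le)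
  -- the values
  have hfin : Module.Finite ℤ (LinearMap.range φ) := inferInstance
  have hfree : Module.Free ℤ (LinearMap.range φ) := inferInstance
  let Bs := Module.finBasis ℤ (LinearMap.range φ)
  obtain ⟨n, hn⟩ : ∃ n, n = Module.finrank ℤ (LinearMap.range φ) := ⟨_, rfl⟩
  obtain ⟨bs⟩ : Nonempty (Module.Basis (Fin n) ℤ (LinearMap.range φ)) := by
    rw [hn]
    exact ⟨Bs⟩
  have hq : ∀ k, ∃ δ : Fin s → ℤ, φ δ = (bs k : ℝ) := fun k => (bs k).2
  choose q hq using hq
  let Q : (Fin n → ℤ) →ₗ[ℤ] (Fin s → ℤ) := Fintype.linearCombination ℤ q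
  have hQ : ∀ c, Q c = ∑ k, c k • q k := fun c => Fintype.linearCombination_apply ℤ q c
  have hQs : ∀ k, Q (Pi.single k 1) = q k := fun k => by
    change Fintype.linearCombination ℤ q _ = _
    rw [Fintype.linearCombination_apply_single, one_smul]
  have hφQ : ∀ c, φ (Q c) = ∑ k, c k • (bs k : ℝ) := by
    intro c
    rw [hQ, map_sum]
    exact Finset.sum_congr rfl fun k _ => by rw [map_zsmul, hq]
  have hφQ0 : ∀ c, φ (Q c) = 0 → c = 0 := by
    intro c hc
    rw [hφQ] at hc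
    have h1 : ∑ k, c k • bs k = 0 := by
      apply Subtype.ext
      rw [Submodule.coe_sum]
      exact hc
    funext k
    exact Fintype.linearIndependent_iff.1 bs.linearIndependent c h1 k
  have hφQe : ∀ δ, ∃ c, φ (δ - Q c) = 0 := by
    intro δ
    refine ⟨fun k => bs.repr ⟨φ δ, δ, rfl⟩ k, ?_⟩
    have h1 := congrArg Subtype.val (bs.sum_repr ⟨φ δ, δ, rfl⟩)
    rw [Submodule.coe_sum] at h1
    rw [map_sub, hφQ, sub_eq_zero]
    exact h1.symm
  obtain ⟨γb, hγb⟩ := hφQe γ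
  have hγb1 : φ (Q γb) = 1 := by
    rw [map_sub, hφγ] at hγb
    linarith
  have hγb0 : γb ≠ 0 := by
    rintro rfl
    rw [map_zero, map_zero] at hγb1
    exact zero_ne_one hγb1
  obtain ⟨D, γ0, c1, hD, hγ0, hc1⟩ := exists_cont γb hγb0
  obtain ⟨t, rfl, g, a1, a, hg1, hg2⟩ := hlat γ0 ⟨c1, hc1⟩
  have hDr : (0 : ℝ) < D := by exact_mod_cast hD
  have hDq : (D : ℚ) ≠ 0 := by exact_mod_cast hD.ne'
  have hγbD : γb = (D : ℤ) • γ0 := funext fun k => by rw [hγ0 k]; rfl
  have hφc : φ (Q γ0) = 1 / D := by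
    rw [hγbD, map_zsmul, map_zsmul, zsmul_eq_mul] at hγb1
    rw [eq_div_iff hDr.ne']
    push_cast at hγb1
    linarith
  set Γ' : H := (1 / D : ℚ) • Γ with hΓ'
  have hΓ'D : (D : ℤ) • Γ' = Γ := by
    rw [hΓ', ← Int.cast_smul_eq_zsmul ℚ, smul_smul]
    push_cast
    rw [mul_one_div_cancel hDq, one_smul]
  have hSΓ' : Sp Γ Γ' (1 / D) := by
    have := (Sp.self hΓ0.le).smul hΓ0.le (1 / D : ℚ)
    push_cast at this
    rwa [mul_one] at this
  set u : H := Γ' - ev (Q γ0) with hu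
  have hSu : Sp Γ u 0 := by
    have h1 := hSΓ'.sub (hSp (Q γ0))
    rwa [hφc, sub_self] at h1
  set Λ : Submodule ℤ H := Submodule.span ℤ (Set.range e ∪ {u}) with hΛ
  have hΛfg : IsNoetherian ℤ Λ := by
    apply isNoetherian_of_fg_of_noetherian
    rw [hΛ]
    exact Submodule.fg_span ((Set.finite_range e).union (Set.finite_singleton u))
  set L := infs Γ hΓ0.le Λ with hL
  have hLfg : L.FG := by
    have h1 : IsNoetherian ℤ L := isNoetherian_of_le (t := Λ) fun a ha => ha.1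
    exact Module.Finite.iff_fg.1 inferInstance
  have hevΛ : ∀ δ, ev δ ∈ Λ := by
    intro δ
    rw [hev]
    exact Submodule.sum_mem _ fun i _ => Submodule.smul_mem _ _
      (Submodule.subset_span (Or.inl ⟨i, rfl⟩))
  have huΛ : u ∈ Λ := Submodule.subset_span (Or.inr rfl)
  obtain ⟨r, f, hf1, hf2, hf3, hf4, hf5⟩ := pos_basis L hLfg (univ.filter fun i => σ i = 0) e
    (fun i hi => by
      have hi0 : σ i = 0 := (Finset.mem_filter.1 hi).2
      refine ⟨⟨?_, ?_⟩, (he i).le⟩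
      · rw [← hevs]
        exact hevΛ _
      · rw [← hi0]
        exact hσ i)
  set G : Fin t → H := fun j => ev (Q (g j)) with hG
  have hGs : ∀ j, Sp Γ (G j) (D * φ (Q (g j)) / D) := by
    intro j
    rw [mul_div_cancel_left₀ _ hDr.ne']
    exact hSp _
  have hspe : ∀ δ, ev δ ∈ Submodule.span ℤ (Set.range e) := by
    intro δ
    rw [hev]
    exact Submodule.sum_mem _ fun i _ => Submodule.smul_mem _ _ (Submodule.subset_span ⟨i, rfl⟩)
  have hQa : ∀ C : Fin (t + 1) → ℤ, Q C = (∑ k, C k * a1 k) • Q γ0 +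
      ∑ j, (∑ k, C k * a k j) • Q (g j) := by
    intro C
    have h1 : C = ∑ k, C k • (Pi.single k 1 : Fin (t + 1) → ℤ) := by
      funext l
      rw [Finset.sum_apply, Finset.sum_eq_single l]
      · simp
      · intro k _ hk
        rw [Pi.smul_apply, Pi.single_eq_of_ne hk.symm, smul_zero]
      · exact fun h => absurd (Finset.mem_univ l) h
    have h2 : C = (∑ k, C k * a1 k) • γ0 + ∑ j, (∑ k, C k * a k j) • g j := by
      conv_lhs => rw [h1]
      have h3 : ∀ k, C k • (Pi.single k 1 : Fin (t + 1) → ℤ) =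
          (C k * a1 k) • γ0 + ∑ j, (C k * a k j) • g j := by
        intro k
        rw [hg1 k, smul_add, smul_smul, Finset.smul_sum]
        congr 1
        exact Finset.sum_congr rfl fun j _ => smul_smul _ _ _
      rw [Finset.sum_congr rfl fun k _ => h3 k, Finset.sum_add_distrib, ← Finset.sum_smul,
        Finset.sum_comm]
      congr 1
      exact Finset.sum_congr rfl fun j _ => (Finset.sum_smul).symm
    conv_lhs => rw [h2]
    rw [map_add, map_zsmul, map_sum]
    congr 1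
    exact Finset.sum_congr rfl fun j _ => map_zsmul _ _ _
  have hind : ∀ (x : ℤ) (y : Fin t → ℤ), (x : ℝ) + ∑ j, (y j : ℝ) * (D * φ (Q (g j))) = 0 →
      x = 0 ∧ y = 0 := by
    intro x y h
    refine hg2 x y (hφQ0 _ ?_)
    rw [map_add, map_zsmul, map_sum, map_add, map_zsmul, map_sum, hφc, zsmul_eq_mul]
    have h1 : ∀ j, φ (Q (y j • g j)) = (y j : ℝ) * φ (Q (g j)) := fun j => by
      rw [map_zsmul, map_zsmul, zsmul_eq_mul]
    rw [Finset.sum_congr rfl fun j _ => h1 j]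
    have h2 : ∑ j, (y j : ℝ) * (D * φ (Q (g j))) = D * ∑ j, (y j : ℝ) * φ (Q (g j)) := by
      rw [Finset.mul_sum]
      exact Finset.sum_congr rfl fun j _ => by ring
    rw [h2] at h
    have h3 : (x : ℝ) * (1 / D) + ∑ j, (y j : ℝ) * φ (Q (g j)) =
        ((x : ℝ) + D * ∑ j, (y j : ℝ) * φ (Q (g j))) / D := by
      field_simp
    rw [h3, h, zero_div]
  have hco : ∀ i, ∃ (A1 : ℤ) (A : Fin t → ℤ) (B : Fin r → ℤ),
      e i = A1 • Γ' + ∑ j, A j • G j + ∑ l, B l • f l ∧
      (σ i = 0 → A1 = 0 ∧ (∀ j, A j = 0) ∧ ∀ l, 0 ≤ B l) := by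
    intro i
    by_cases hi : σ i = 0
    · obtain ⟨B, hB, hB'⟩ := hf5 i (Finset.mem_filter.2 ⟨Finset.mem_univ _, hi⟩)
      refine ⟨0, 0, B, ?_, fun _ => ⟨rfl, fun _ => rfl, hB⟩⟩
      rw [hB']
      simp
    · obtain ⟨C, hC⟩ := hφQe (Pi.single i 1)
      have h1 : e i - ((∑ k, C k * a1 k) • Γ' + ∑ j, (∑ k, C k * a k j) • G j) ∈ L := by
        have h2 : e i - ((∑ k, C k * a1 k) • Γ' + ∑ j, (∑ k, C k * a k j) • G j) =
            ev (Pi.single i 1 - Q C) - (∑ k, C k * a1 k) • u := by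
          rw [map_sub, hevs, hQa C, map_add, map_zsmul, map_sum, hu, smul_sub]
          have h3 : ∀ j, ev ((∑ k, C k * a k j) • Q (g j)) = (∑ k, C k * a k j) • G j :=
            fun j => map_zsmul _ _ _
          rw [Finset.sum_congr rfl fun j _ => h3 j]
          abel
        rw [h2]
        refine L.sub_mem ⟨hevΛ _, ?_⟩ (L.smul_mem _ ⟨huΛ, hSu⟩)
        rw [← hC]
        exact hSp _
      obtain ⟨B, hB⟩ := hf4 _ h1
      refine ⟨∑ k, C k * a1 k, fun j => ∑ k, C k * a k j, B, ?_, fun h => absurd h hi⟩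
      rw [← hB]
      abel
  choose A1 A B hA hA' using hco
  refine ⟨D, t, r, Q γ0, G, fun j => D * φ (Q (g j)), f, σ, A1, A, B, hD, ?_, ?_,
    fun j => hspe _, hGs, fun l => ⟨hf1 l, (hf3 l).2, ?_⟩, hσ, hA, hA', hind⟩
  · -- the dimension
    have hliQ : LinearIndependent ℚ e := (LinearIndependent.iff_fractionRing ℤ ℚ).1 hli
    let w : (Unit ⊕ Fin t) ⊕ Fin r → H := Sum.elim (Sum.elim (fun _ => Γ') G) f
    have hwli : LinearIndependent ℤ w := by
      rw [Fintype.linearIndependent_iff]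
      intro c hc
      rw [Fintype.sum_sum_type, Fintype.sum_sum_type] at hc
      simp only [w, Sum.elim_inl, Sum.elim_inr, Finset.univ_unique, Finset.sum_singleton] at hc
      have h1 : Sp Γ (c (Sum.inl (Sum.inl default)) • Γ' + ∑ j, c (Sum.inl (Sum.inr j)) • G j +
          ∑ l, c (Sum.inr l) • f l) (c (Sum.inl (Sum.inl default)) * (1 / D) +
          ∑ j, (c (Sum.inl (Sum.inr j)) : ℝ) * (D * φ (Q (g j)) / D) +
          ∑ l, (c (Sum.inr l) : ℝ) * 0) :=
        ((hSΓ'.zsmul hΓ0.le _).add (Sp.sum hΓ0.le _ fun j _ => (hGs j).zsmul hΓ0.le _)).add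
          (Sp.sum hΓ0.le _ fun l _ => (hf3 l).2.zsmul hΓ0.le _)
      rw [hc] at h1
      have h2 := h1.unique hΓ0 (Sp.zero hΓ0.le)
      have h3 : (c (Sum.inl (Sum.inl default)) : ℝ) +
          ∑ j, (c (Sum.inl (Sum.inr j)) : ℝ) * (D * φ (Q (g j))) = 0 := by
        have h4 : (c (Sum.inl (Sum.inl default)) : ℝ) +
          ∑ j, (c (Sum.inl (Sum.inr j)) : ℝ) * (D * φ (Q (g j))) = D *
          (c (Sum.inl (Sum.inl default)) * (1 / D) +
          ∑ j, (c (Sum.inl (Sum.inr j)) : ℝ) * (D * φ (Q (g j)) / D) +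
          ∑ l, (c (Sum.inr l) : ℝ) * 0) := by
          have h0 : ∑ l, (c (Sum.inr l) : ℝ) * 0 = 0 := by simp
          rw [h0, add_zero, mul_add, Finset.mul_sum]
          congr 1
          · field_simp
          · exact Finset.sum_congr rfl fun j _ => by field_simp
        rw [h4, h2, mul_zero]
      obtain ⟨h5, h6⟩ := hind _ (fun j => c (Sum.inl (Sum.inr j))) h3
      have h7 : ∀ j, c (Sum.inl (Sum.inr j)) = 0 := fun j => congrFun h6 j
      rw [h5, zero_smul, Finset.sum_congr rfl fun j _ => by rw [h7 j, zero_smul],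
        Finset.sum_const_zero, add_zero, zero_add] at hc
      have h8 := Fintype.linearIndependent_iff.1 hf2 (fun l => c (Sum.inr l)) hc
      rintro ((⟨⟩ | j) | l)
      · exact h5
      · exact h7 j
      · exact h8 l
    have hwQ : LinearIndependent ℚ w := (LinearIndependent.iff_fractionRing ℤ ℚ).1 hwli
    have hz : ∀ (W : Submodule ℚ H) (z : H), z ∈ W → ∀ c : ℤ, c • z ∈ W := by
      intro W z hz c
      rw [← Int.cast_smul_eq_zsmul ℚ]
      exact W.smul_mem _ hz
    have hspan : Submodule.span ℚ (Set.range e) = Submodule.span ℚ (Set.range w) := by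
      apply le_antisymm
      · rw [Submodule.span_le]
        rintro _ ⟨i, rfl⟩
        change e i ∈ Submodule.span ℚ (Set.range w)
        rw [hA i]
        refine Submodule.add_mem _ (Submodule.add_mem _ (hz _ _ ?_ _)
          (Submodule.sum_mem _ fun j _ => hz _ _ ?_ _)) (Submodule.sum_mem _ fun l _ => hz _ _ ?_ _)
        · exact Submodule.subset_span ⟨Sum.inl (Sum.inl ()), rfl⟩
        · exact Submodule.subset_span ⟨Sum.inl (Sum.inr j), rfl⟩
        · exact Submodule.subset_span ⟨Sum.inr l, rfl⟩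
      · have hev' : ∀ δ, ev δ ∈ Submodule.span ℚ (Set.range e) := by
          intro δ
          rw [hev]
          exact Submodule.sum_mem _ fun i _ =>
            hz _ _ (Submodule.subset_span (Set.mem_range_self i)) _
        have hΓ'' : Γ' ∈ Submodule.span ℚ (Set.range e) := by
          rw [hΓ', ← hΓev]
          exact Submodule.smul_mem _ _ (hev' _)
        have hΛ' : Λ ≤ (Submodule.span ℚ (Set.range e)).restrictScalars ℤ := by
          rw [hΛ, Submodule.span_le]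
          rintro z (⟨i, rfl⟩ | hz)
          · exact Submodule.subset_span ⟨i, rfl⟩
          · rw [Set.mem_singleton_iff.1 hz]
            exact Submodule.sub_mem _ hΓ'' (hev' _)
        rw [Submodule.span_le]
        rintro _ ⟨((⟨⟩ | j) | l), rfl⟩
        · exact hΓ''
        · exact hev' _
        · exact hΛ' (hf3 l).1
    have h1 := finrank_span_eq_card hliQ
    have h2 := finrank_span_eq_card hwQ
    rw [hspan, h2] at h1
    simp only [Fintype.card_sum, Fintype.card_unit, Fintype.card_fin] at h1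
    omega
  · rw [← hev]
    have h1 := (Sp.self hΓ0.le).sub ((hSp (Q γ0)).zsmul hΓ0.le (D : ℤ))
    rw [hφc] at h1
    push_cast at h1
    rw [mul_one_div_cancel hDr.ne', sub_self] at h1
    exact h1
  · have h1 : Λ ≤ Submodule.span ℤ (Set.range e) ⊔ Submodule.span ℤ {Γ'} := by
      rw [hΛ, Submodule.span_le]
      rintro z (⟨i, rfl⟩ | hz)
      · exact Submodule.mem_sup_left (Submodule.subset_span ⟨i, rfl⟩)
      · rw [Set.mem_singleton_iff.1 hz]
        exact Submodule.sub_mem _ (Submodule.mem_sup_right (Submodule.mem_span_singleton_self _))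
          (Submodule.mem_sup_left (hspe _))
    exact h1 (hf3 l).1

end Pool.Agent.W5h94.HR
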